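import Pool.Agent.Helper69.UX.StC

set_option autoImplicit false

namespace Pool.Agent.Helper9.UX

open Finset Filter Pool.Agent.Helper82.CN Pool.Agent.Helper11.PV Pool.Agent.Helper69.VX Pool.Agent.Helper69.UX

/-- `-ln(1-x)/x` is increasing -/
theorem log_ratio {a q : ℝ} (ha : 0 < a) (haq : a ≤ q) (hq : q < 1) :
    q * (-Real.log (1 - a)) ≤ a * (-Real.log (1 - q)) := by
  have hq0 : 0 < q := ha.trans_le haq
  have hc := strictConcaveOn_log_Ioi.concaveOn
  have h := hc.2 (show (1 : ℝ) ∈ Set.Ioi (0 : ℝ) by
      show (0 : ℝ) < 1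
      exact one_pos)
    (show (1 - q : ℝ) ∈ Set.Ioi (0 : ℝ) by
      show (0 : ℝ) < 1 - q
      linarith)
    (show (0 : ℝ) ≤ 1 - a / q by
      have : a / q ≤ 1 := (div_le_one hq0).2 haq
      linarith)
    (show (0 : ℝ) ≤ a / q by positivity) (by ring)
  simp only [smul_eq_mul, Real.log_one, mul_zero, zero_add, mul_one] at h
  have h1 : 1 - a / q + a / q * (1 - q) = 1 - a := by
    field_simp
    ring
  rw [h1] at h
  have h2 : q * (a / q * Real.log (1 - q)) = a * Real.log (1 - q) := by
    field_simp
  have h3 := mul_le_mul_of_nonneg_left h hq0.le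
  rw [h2] at h3
  linarith

/-- UX module MGB: the break points. -/
theorem hMGB (hMGK : StMGK) (hMGM : StMGM) : StMGB := by
  intro a M θ H hLC hθ hH
  obtain ⟨m1, m2, m3, m4, m5, m6⟩ := hMGM a M hLC
  have hU0 : ∀ j, 0 ≤ Ut a M j := by
    intro j
    unfold Ut
    refine Finset.sum_nonneg fun i hi => ?_
    have := hLC.pos i (Finset.mem_range.1 hi)
    positivity
  have hZ : ∀ j, j < M → 0 < Zt a M j := by
    intro j hj
    unfold Zt
    refine Finset.sum_pos (fun i hi => hLC.pos i (Finset.mem_Ico.1 hi).2) ?_
    exact ⟨j, Finset.mem_Ico.2 ⟨le_refl _, hj⟩⟩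
  have hHpos : 0 < H := by
    have := hU0 0
    linarith
  have ha0 : 0 < a 0 := hLC.pos 0 hLC.one
  set c : ℝ := 1 + 1 / (12 * H ^ 2) with hc
  have hcpos : 0 < c := by
    have : 0 < 1 / (12 * H ^ 2) := by positivity
    linarith
  -- the hazard rates
  have hq : ∀ j, j < M → a 0 * Zt a M j ≤ a j := by
    intro j
    induction j with
    | zero => intro _; rw [m5, mul_one]
    | succ j ih =>
      intro hj
      have h1 := ih (by omega)
      have h2 := m1 j
      have h3 := hZ j (by omega)
      have h4 := hZ (j + 1) hj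
      have h5 : (a 0 * Zt a M (j + 1)) * Zt a M j ≤ a (j + 1) * Zt a M j := by
        calc (a 0 * Zt a M (j + 1)) * Zt a M j = (a 0 * Zt a M j) * Zt a M (j + 1) := by ring
          _ ≤ a j * Zt a M (j + 1) := mul_le_mul_of_nonneg_right h1 h4.le
          _ ≤ a (j + 1) * Zt a M j := h2
      exact le_of_mul_le_mul_right h5 h3
  have hU : ∀ j, j + 1 < M → Ut a M (j + 1) * Zt a M 1 ≤ Ut a M 1 * Zt a M (j + 1) := by
    intro j
    induction j with
    | zero => intro _; exact le_refl _
    | succ j ih =>
      intro hj
      have h1 := ih (by omega)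
      have h2 := m2 (j + 1)
      have h3 := hZ (j + 1) (by omega)
      have h4 := hZ (j + 1 + 1) hj
      have h4' := hZ 1 (by omega)
      have h5 : (Ut a M (j + 1 + 1) * Zt a M 1) * Zt a M (j + 1) ≤
          (Ut a M 1 * Zt a M (j + 1 + 1)) * Zt a M (j + 1) := by
        calc (Ut a M (j + 1 + 1) * Zt a M 1) * Zt a M (j + 1)
            = (Ut a M (j + 1 + 1) * Zt a M (j + 1)) * Zt a M 1 := by ring
          _ ≤ (Ut a M (j + 1) * Zt a M (j + 1 + 1)) * Zt a M 1 :=
              mul_le_mul_of_nonneg_right h2 h4'.le
          _ = (Ut a M (j + 1) * Zt a M 1) * Zt a M (j + 1 + 1) := by ring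
          _ ≤ (Ut a M 1 * Zt a M (j + 1)) * Zt a M (j + 1 + 1) :=
              mul_le_mul_of_nonneg_right h1 h4.le
          _ = (Ut a M 1 * Zt a M (j + 1 + 1)) * Zt a M (j + 1) := by ring
      exact le_of_mul_le_mul_right h5 h3
  -- the main induction, divided by Zt
  have key : ∀ j, j < M → θ + j + Ut a M j / Zt a M j ≤ H * (1 + Real.log (1 / Zt a M j) / c) := by
    intro j
    induction j with
    | zero =>
      intro _
      rw [m5]
      simp only [Nat.cast_zero, add_zero, div_one, Real.log_one, zero_div, mul_one]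
      exact hH.ge
    | succ j ih =>
      intro hj
      have h1 := ih (by omega)
      have hZj := hZ j (by omega)
      have hZj' := hZ (j + 1) hj
      have hZ1 := hZ 1 (by omega)
      have hzz := m6 j (by omega)
      have haj := hLC.pos j (by omega)
      have h01 := m6 0 (by omega)
      rw [m5] at h01
      have hU01 := m4 0
      have hUj := m4 j
      have hqj := hq j (by omega)
      have hUU := hU j hj
      simp only [zero_add] at h01 hU01
      set Z := Zt a M j with hZdef
      set Z' := Zt a M (j + 1) with hZdef'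
      set U' := Ut a M (j + 1) with hUdef'
      set q : ℝ := a j / Z with hqdef
      have hq0 : a 0 ≤ q := by
        rw [hqdef, le_div_iff₀ hZj]
        exact hqj
      have hq1 : q < 1 := by
        rw [hqdef, div_lt_one hZj]
        linarith
      have h1q : 1 - q = Z' / Z := by
        rw [hqdef]
        field_simp
        linarith
      have ha01 : a 0 < 1 := by linarith
      have hZ1' : Zt a M 1 = 1 - a 0 := by linarith
      -- numerical inequality
      have hK := hMGK H θ (Ut a M 0) (a 0) hθ (hU0 0) hH ha0 ha01 (by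
        rw [le_div_iff₀ (by have := hU0 0; linarith)]
        exact m3)
      rw [← hc] at hK
      have hlr := log_ratio ha0 hq0 hq1
      -- e
      set e : ℝ := 1 + U' / Z' with he
      have he0 : e ≤ Ut a M 0 / (1 - a 0) := by
        have h2 : U' / Z' ≤ Ut a M 1 / Zt a M 1 := by
          rw [div_le_div_iff₀ hZj' hZ1]
          exact hUU
        have h3 : Ut a M 0 / (1 - a 0) = 1 + Ut a M 1 / Zt a M 1 := by
          rw [hZ1', hU01, hZ1']
          have : (1 : ℝ) - a 0 ≠ 0 := by linarith
          field_simp
          ring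
        rw [h3, he]
        linarith
      have hstep : θ + ((j + 1 : ℕ) : ℝ) + U' / Z' = θ + j + Ut a M j / Z + q * e := by
        rw [hUj, he]
        have h2 : q = 1 - Z' / Z := by linarith
        rw [h2]
        push_cast
        field_simp
        ring
      have hqpos : 0 < q := ha0.trans_le hq0
      have hlog : Real.log (1 / Z') = Real.log (1 / Z) + (-Real.log (1 - q)) := by
        rw [h1q, Real.log_div hZj'.ne' hZj.ne', one_div, one_div, Real.log_inv, Real.log_inv]
        ring
      -- q e <= (H/c) (-log(1-q))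
      have hfin : q * e ≤ H / c * (-Real.log (1 - q)) := by
        have h2 : q * e ≤ q * (Ut a M 0 / (1 - a 0)) := mul_le_mul_of_nonneg_left he0 hqpos.le
        have h3 : Ut a M 0 / (1 - a 0) ≤ H / c * (-Real.log (1 - a 0)) / a 0 := by
          rw [le_div_iff₀ ha0, div_mul_eq_mul_div, div_le_iff₀ (by linarith), div_mul_eq_mul_div,
            div_mul_eq_mul_div, le_div_iff₀ hcpos]
          linarith
        have h4 : q * (Ut a M 0 / (1 - a 0)) ≤ q * (H / c * (-Real.log (1 - a 0)) / a 0) :=
          mul_le_mul_of_nonneg_left h3 hqpos.le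
        have h5 : q * (H / c * (-Real.log (1 - a 0)) / a 0) =
            H / c * (q * (-Real.log (1 - a 0))) / a 0 := by ring
        have h6 : H / c * (q * (-Real.log (1 - a 0))) / a 0 ≤
            H / c * (a 0 * (-Real.log (1 - q))) / a 0 := by
          apply div_le_div_of_nonneg_right _ ha0.le
          exact mul_le_mul_of_nonneg_left hlr (by positivity)
        have h7 : H / c * (a 0 * (-Real.log (1 - q))) / a 0 = H / c * (-Real.log (1 - q)) := by
          field_simp
        linarith
      rw [hstep, hlog]
      have h8 : H * (1 + (Real.log (1 / Z) + -Real.log (1 - q)) / c) =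
          H * (1 + Real.log (1 / Z) / c) + H / c * (-Real.log (1 - q)) := by ring
      rw [h8]
      linarith
  intro j hj
  have h1 := key j hj
  have h2 := hZ j hj
  have h3 := mul_le_mul_of_nonneg_right h1 h2.le
  have h4 : (θ + j + Ut a M j / Zt a M j) * Zt a M j = (θ + j) * Zt a M j + Ut a M j := by
    field_simp
  have h5 : H * (1 + Real.log (1 / Zt a M j) / c) * Zt a M j =
      H * (Zt a M j + Zt a M j * Real.log (1 / Zt a M j) / c) := by ring
  rw [h4, h5] at h3
  exact h3

end Pool.Agent.Helper9.UX
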